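import Mathlib

/-!
# MP_d046ed_co : the `t`-dimension of divisibility on `(α n, n]` is asymptotic to `log n / log t`
-/

open Filter Topology Set
open scoped Classical

namespace Pool.Agent.Results.MP_d046ed_co.DivTDimension

/-- `Div(I)`: the positive integers in `I`, ordered by divisibility. -/
def DivPoset (I : Set ℝ) : Type := {m : ℕ // 0 < m ∧ (m : ℝ) ∈ I}

instance (I : Set ℝ) : PartialOrder (DivPoset I) where
  le a b := a.1 ∣ b.1
  le_refl a := dvd_refl _
  le_trans a b c h1 h2 := dvd_trans h1 h2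
  le_antisymm a b h1 h2 := Subtype.ext (Nat.dvd_antisymm h1 h2)

/-- The `t`-dimension of a poset: the least `d ≥ 1` such that the poset has an order embedding
into `t^d`. -/
noncomputable def tDim (Q : Type) [PartialOrder Q] (t : ℕ) : ℕ :=
  sInf {d | 1 ≤ d ∧ ∃ f : Q → (Fin d → Fin t), Function.Injective f ∧ ∀ x y, x ≤ y ↔ f x ≤ f y}

/-! ### general lemmas -/

lemma exists_embed {Q : Type} [PartialOrder Q] {t : ℕ} {ι : Type} [Fintype ι]
    (f : Q → ι → Fin t) (hf : ∀ x y, x ≤ y ↔ f x ≤ f y) (d : ℕ) (hd : Fintype.card ι = d) :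
    ∃ g : Q → (Fin d → Fin t), Function.Injective g ∧ ∀ x y, x ≤ y ↔ g x ≤ g y := by
  subst hd
  let e := Fintype.equivFin ι
  have h : ∀ x y, x ≤ y ↔ (fun i => f x (e.symm i)) ≤ (fun i => f y (e.symm i)) := by
    intro x y
    rw [hf]
    constructor
    · intro h i; exact h _
    · intro h i
      have := h (e i)
      simpa using this
  refine ⟨fun x i => f x (e.symm i), ?_, h⟩
  intro x y hxy
  apply le_antisymm
  · rw [h]; exact le_of_eq hxy
  · rw [h]; exact le_of_eq hxy.symm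

lemma exists_antichain (n t d : ℕ) (h : n * ((t - 1) * d + 1) ≤ t ^ d) :
    ∃ A : Finset (Fin d → Fin t), n ≤ A.card ∧ ∀ a ∈ A, ∀ b ∈ A, a ≤ b → a = b := by
  let s : (Fin d → Fin t) → ℕ := fun a => ∑ i, (a i : ℕ)
  have hs : ∀ a ∈ (Finset.univ : Finset (Fin d → Fin t)), s a ∈ Finset.range ((t - 1) * d + 1) := by
    intro a _
    rw [Finset.mem_range, Nat.lt_succ_iff]
    calc s a ≤ ∑ _i : Fin d, (t - 1) := Finset.sum_le_sum (fun i _ => by have := (a i).2; omega)
      _ = (t - 1) * d := by simp [mul_comm]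
  obtain ⟨y, -, hy⟩ := Finset.exists_le_card_fiber_of_mul_le_card_of_maps_to hs
    (by simp) (n := n) (by
      rw [Finset.card_range, Finset.card_univ, Fintype.card_fun, Fintype.card_fin,
        Fintype.card_fin, mul_comm]
      exact h)
  refine ⟨_, hy, ?_⟩
  intro a ha b hb hab
  have ha' := (Finset.mem_filter.1 ha).2
  have hb' := (Finset.mem_filter.1 hb).2
  have h1 : ∀ i ∈ (Finset.univ : Finset (Fin d)), (a i : ℕ) ≤ (b i : ℕ) := fun i _ => hab i
  have h2 := (Finset.sum_eq_sum_iff_of_le h1).1 (ha'.trans hb'.symm)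
  funext i
  exact Fin.ext (h2 i (Finset.mem_univ i))

/-! ### the divisibility poset -/

section Main

variable {α : ℝ} {n B L : ℕ}

/-- the poset -/
abbrev Q (α : ℝ) (n : ℕ) := DivPoset (Set.Ioc (α * n) n)

lemma Q_pos (x : Q α n) : 0 < x.1 := x.2.1

lemma Q_le (x : Q α n) : x.1 ≤ n := by exact_mod_cast x.2.2.2

lemma Q_gt (x : Q α n) : α * n < x.1 := x.2.2.1

lemma Q_def (x y : Q α n) : x ≤ y ↔ x.1 ∣ y.1 := Iff.rfl

instance : Finite (Q α n) := by
  refine Finite.of_injective (fun x : Q α n => (⟨x.1, Nat.lt_succ_of_le (Q_le x)⟩ : Fin (n + 1))) ?_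
  intro x y h
  have : x.1 = y.1 := by simpa using h
  exact Subtype.ext this

noncomputable instance : Fintype (Q α n) := Fintype.ofFinite _

lemma card_Q_le : Fintype.card (Q α n) ≤ n := by
  have h : Function.Injective (fun x : Q α n => (⟨x.1 - 1, by
      have := Q_le x; have := Q_pos x; omega⟩ : Fin n)) := by
    intro x y h
    have h1 : x.1 - 1 = y.1 - 1 := by simpa using h
    have := Q_pos x
    have := Q_pos y
    exact Subtype.ext (by omega)
  simpa using Fintype.card_le_of_injective _ h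

lemma le_card_Q (hα : 0 ≤ α) : (1 - α) * n ≤ Fintype.card (Q α n) := by
  have hle : (Finset.Ioc ⌊α * n⌋₊ n).card ≤ Fintype.card (Q α n) := by
    have : ∀ m : (Finset.Ioc ⌊α * n⌋₊ n), 0 < m.1 ∧ (m.1 : ℝ) ∈ Set.Ioc (α * n) (n : ℝ) := by
      rintro ⟨m, hm⟩
      rw [Finset.mem_Ioc] at hm
      refine ⟨by show 0 < m; omega, ?_, by exact_mod_cast hm.2⟩
      exact (Nat.floor_lt (by positivity)).1 hm.1
    let g : (Finset.Ioc ⌊α * n⌋₊ n) → Q α n := fun m => ⟨m.1, this m⟩
    have hinj : Function.Injective g := by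
      intro a b h
      have h' : (g a).1 = (g b).1 := by rw [h]
      exact Subtype.ext h'
    have h0 := Fintype.card_le_of_injective g hinj
    rwa [Fintype.card_coe] at h0
  rw [Nat.card_Ioc] at hle
  have h1 : (⌊α * n⌋₊ : ℝ) ≤ α * n := Nat.floor_le (by positivity)
  have h2 : (n : ℝ) ≤ ((n - ⌊α * n⌋₊ : ℕ) : ℝ) + ⌊α * n⌋₊ := by
    have : n ≤ (n - ⌊α * n⌋₊) + ⌊α * n⌋₊ := by omega
    exact_mod_cast this
  have h3 : ((n - ⌊α * n⌋₊ : ℕ) : ℝ) ≤ Fintype.card (Q α n) := by exact_mod_cast hle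
  linarith

/-- the label: the part of the factorization at primes `> B` -/
noncomputable def kap (B : ℕ) (x : Q α n) : ℕ →₀ ℕ := x.1.factorization.filter (fun p => B < p)

lemma quot_le (hα : 0 < α) (hB : 1 / α ≤ B) {x y : Q α n} {k : ℕ} (h : x.1 * k = y.1) :
    0 < k ∧ k ≤ B := by
  have hk : 0 < k := by
    rcases Nat.eq_zero_or_pos k with rfl | h'
    · have := Q_pos y; omega
    · exact h'
  refine ⟨hk, ?_⟩
  by_contra hlt
  push Not at hlt
  have h1 : (B : ℝ) < k := by exact_mod_cast hlt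
  have h2 := Q_gt x
  have h3 : (y.1 : ℝ) ≤ n := by exact_mod_cast Q_le y
  have h4 : (x.1 : ℝ) * k = y.1 := by exact_mod_cast h
  have h5 : 1 < α * k := by
    have : 1 / α < k := lt_of_le_of_lt hB h1
    rwa [div_lt_iff₀ hα, mul_comm] at this
  have hn : (0 : ℝ) < n := by
    have : 0 < n := lt_of_lt_of_le (Q_pos x) (Q_le x)
    exact_mod_cast this
  have hk' : (0 : ℝ) < k := by exact_mod_cast hk
  have h6 : α * n * k < x.1 * k := mul_lt_mul_of_pos_right h2 hk'
  nlinarith

lemma kap_eq_of_le (hα : 0 < α) (hB : 1 / α ≤ B) {x y : Q α n} (h : x ≤ y) :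
    kap B x = kap B y := by
  obtain ⟨k, hk⟩ := (Q_def x y).1 h
  obtain ⟨hk0, hkB⟩ := quot_le hα hB hk.symm
  ext p
  unfold kap
  rw [Finsupp.filter_apply, Finsupp.filter_apply]
  split_ifs with hp
  · rw [hk, Nat.factorization_mul (Q_pos x).ne' hk0.ne', Finsupp.add_apply,
      Nat.factorization_eq_zero_of_lt (lt_of_le_of_lt hkB hp), add_zero]
  · rfl

lemma eq_of_kap_eq {x y : Q α n} (h : kap B x = kap B y)
    (h' : ∀ p ≤ B, x.1.factorization p = y.1.factorization p) : x = y := by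
  apply Subtype.ext
  apply Nat.eq_of_factorization_eq (Q_pos x).ne' (Q_pos y).ne'
  intro p
  by_cases hp : B < p
  · have := DFunLike.congr_fun h p
    unfold kap at this
    rwa [Finsupp.filter_apply, Finsupp.filter_apply, if_pos hp, if_pos hp] at this
  · exact h' p (by omega)

lemma fact_lt (hL : Nat.log 2 n < 2 ^ L) (x : Q α n) (p : ℕ) : x.1.factorization p < 2 ^ L := by
  by_cases hp : p.Prime
  · refine lt_of_le_of_lt ?_ hL
    apply Nat.le_log_of_pow_le (by norm_num)
    calc 2 ^ x.1.factorization p ≤ p ^ x.1.factorization p := Nat.pow_le_pow_left hp.two_le _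
      _ ≤ x.1 := Nat.ordProj_le p (Q_pos x).ne'
      _ ≤ n := Q_le x
  · rw [Nat.factorization_eq_zero_of_not_prime _ hp]
    positivity

/-- the bits of the exponents -/
def bit (z p j : ℕ) : Bool := Nat.testBit (z.factorization p) j

/-- the index type of the second group of coordinates -/
abbrev Idx (B L : ℕ) := Fin B → Fin (B + 1) × Fin L × Bool

/-- membership in the set `S_c` -/
def S (c : Idx B L) (z : ℕ) : Prop := ∀ i, bit z (c i).1 (c i).2.1 = (c i).2.2

/-- membership in the up-set generated by `S_c` -/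
def U (c : Idx B L) (z : Q α n) : Prop := ∃ w : Q α n, w ≤ z ∧ S c w.1

lemma U_mono {c : Idx B L} {x y : Q α n} (h : x ≤ y) (hx : U c x) : U c y := by
  obtain ⟨w, hw, hS⟩ := hx
  exact ⟨w, le_trans hw h, hS⟩

lemma separate (hα : 0 < α) (hB : 1 / α ≤ B) (hL : Nat.log 2 n < 2 ^ L) (hL0 : 0 < L)
    {x y : Q α n} (hk : kap B x = kap B y) (h : ¬ x ≤ y) :
    ∃ c : Idx B L, U c x ∧ ¬ U c y := by
  have key : ∀ i : Fin B, ∃ c : Fin (B + 1) × Fin L × Bool, bit x.1 c.1 c.2.1 = c.2.2 ∧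
      ∀ u : Q α n, u.1 * (i + 1) = y.1 → bit u.1 c.1 c.2.1 ≠ c.2.2 := by
    intro i
    by_cases hu : ∃ u : Q α n, u.1 * ((i : ℕ) + 1) = y.1
    · obtain ⟨u, hu⟩ := hu
      have huy : u ≤ y := ⟨_, hu.symm⟩
      have hxu : x ≠ u := fun e => h (e ▸ huy)
      have hku : kap B x = kap B u := by rw [hk, kap_eq_of_le hα hB huy]
      have h1 : ∃ p ≤ B, x.1.factorization p ≠ u.1.factorization p := by
        by_contra hc
        push Not at hc
        exact hxu (eq_of_kap_eq hku hc)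
      obtain ⟨p, hp, hpne⟩ := h1
      have h2 : ∃ j, Nat.testBit (x.1.factorization p) j ≠ Nat.testBit (u.1.factorization p) j := by
        by_contra hc
        push Not at hc
        exact hpne (Nat.eq_of_testBit_eq hc)
      obtain ⟨j, hj⟩ := h2
      have hjL : j < L := by
        by_contra hc
        push Not at hc
        have e : 2 ^ L ≤ 2 ^ j := Nat.pow_le_pow_right (by norm_num) hc
        rw [Nat.testBit_lt_two_pow (lt_of_lt_of_le (fact_lt hL x p) e),
          Nat.testBit_lt_two_pow (lt_of_lt_of_le (fact_lt hL u p) e)] at hj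
        exact hj rfl
      refine ⟨(⟨p, by omega⟩, ⟨j, hjL⟩, bit x.1 p j), rfl, ?_⟩
      intro u' hu'
      have : u'.1 = u.1 := Nat.eq_of_mul_eq_mul_right (by omega) (hu'.trans hu.symm)
      show bit u'.1 p j ≠ bit x.1 p j
      rw [this]
      exact fun e => hj e.symm
    · push Not at hu
      refine ⟨(0, ⟨0, hL0⟩, bit x.1 0 0), rfl, ?_⟩
      intro u hu'
      exact absurd hu' (hu u)
  choose c hc1 hc2 using key
  refine ⟨c, ⟨x, le_refl x, fun i => hc1 i⟩, ?_⟩
  rintro ⟨w, hwy, hS⟩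
  obtain ⟨k, hk'⟩ := (Q_def w y).1 hwy
  obtain ⟨hk0, hkB⟩ := quot_le hα hB hk'.symm
  have h1 := hc2 ⟨k - 1, by omega⟩ w (by
    show w.1 * (k - 1 + 1) = y.1
    rw [Nat.sub_add_cancel hk0, hk'])
  exact h1 (hS _)

/-- the upper bound on the dimension -/
lemma upper (hα : 0 < α) (hB : 1 / α ≤ B) (hL : Nat.log 2 n < 2 ^ L) (hL0 : 0 < L) {t d : ℕ}
    (ht : 2 ≤ t) (hd : n * ((t - 1) * d + 1) ≤ t ^ d) :
    ∃ f : Q α n → (Fin (d + ((B + 1) * (L * 2)) ^ B) → Fin t), Function.Injective f ∧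
      ∀ x y, x ≤ y ↔ f x ≤ f y := by
  obtain ⟨A, hA1, hA2⟩ := exists_antichain n t d hd
  let Im : Finset (ℕ →₀ ℕ) := (Finset.univ : Finset (Q α n)).image (kap B)
  have hIm : Im.card ≤ A.card := by
    refine (Finset.card_image_le).trans ?_
    rw [Finset.card_univ]
    exact card_Q_le.trans hA1
  have hmem : ∀ x : Q α n, kap B x ∈ Im := fun x => Finset.mem_image_of_mem _ (Finset.mem_univ x)
  obtain ⟨e⟩ := Function.Embedding.nonempty_of_card_le (α := Im) (β := A) (by simpa using hIm)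
  let code : Q α n → (Fin d → Fin t) := fun x => (e ⟨kap B x, hmem x⟩).1
  have hcode1 : ∀ x y, kap B x = kap B y → code x = code y := by
    intro x y h
    show (e ⟨kap B x, hmem x⟩).1 = (e ⟨kap B y, hmem y⟩).1
    congr 2
    exact Subtype.ext h
  have hcode2 : ∀ x y, code x ≤ code y → kap B x = kap B y := by
    intro x y h
    have h1 := hA2 _ (e ⟨kap B x, hmem x⟩).2 _ (e ⟨kap B y, hmem y⟩).2 h
    have h2 := e.injective (Subtype.ext h1)
    exact congrArg Subtype.val h2
  let f : Q α n → (Fin d ⊕ Idx B L) → Fin t := fun x => Sum.elim (code x)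
    (fun c => if U c x then ⟨1, by omega⟩ else ⟨0, by omega⟩)
  refine exists_embed f ?_ _ ?_
  · intro x y
    constructor
    · intro h i
      rcases i with i | c
      · show code x i ≤ code y i
        rw [hcode1 x y (kap_eq_of_le hα hB h)]
      · show (if U c x then (⟨1, by omega⟩ : Fin t) else ⟨0, by omega⟩) ≤
          (if U c y then (⟨1, by omega⟩ : Fin t) else ⟨0, by omega⟩)
        by_cases hx : U c x
        · rw [if_pos hx, if_pos (U_mono h hx)]
        · rw [if_neg hx]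
          exact Nat.zero_le _
    · intro h
      by_contra hxy
      have h1 : code x ≤ code y := fun i => h (Sum.inl i)
      obtain ⟨c, hc1, hc2⟩ := separate hα hB hL hL0 (hcode2 x y h1) hxy
      have h2 : (if U c x then (⟨1, by omega⟩ : Fin t) else ⟨0, by omega⟩) ≤
          (if U c y then (⟨1, by omega⟩ : Fin t) else ⟨0, by omega⟩) := h (Sum.inr c)
      rw [if_pos hc1, if_neg hc2] at h2
      have : (1 : ℕ) ≤ 0 := h2
      omega
  · rw [Fintype.card_sum, Fintype.card_fin, Fintype.card_fun, Fintype.card_fin,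
      Fintype.card_prod, Fintype.card_prod, Fintype.card_fin, Fintype.card_fin, Fintype.card_bool]

end Main

/-! ### asymptotics -/

lemma tendsto_natLog : Tendsto (fun n : ℕ => (Nat.log 2 n : ℝ)) atTop atTop := by
  refine tendsto_natCast_atTop_atTop.comp ?_
  refine tendsto_atTop.2 (fun b => ?_)
  filter_upwards [eventually_ge_atTop (2 ^ b)] with n hn
  exact Nat.le_log_of_pow_le (by norm_num) hn

lemma natLog_le (n : ℕ) (hn : 1 ≤ n) : (Nat.log 2 n : ℝ) ≤ 2 * Real.log n := by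
  have h1 : 2 ^ Nat.log 2 n ≤ n := Nat.pow_log_le_self 2 (by omega)
  have h2 : ((2 : ℝ) ^ Nat.log 2 n) ≤ n := by exact_mod_cast h1
  have h3 := Real.log_le_log (by positivity) h2
  rw [Real.log_pow] at h3
  have h4 := Real.log_two_gt_d9
  have h5 : (0 : ℝ) ≤ Nat.log 2 n := by positivity
  nlinarith

lemma K_lim (B : ℕ) : Tendsto (fun n : ℕ =>
    ((((B + 1) * ((Nat.size (Nat.log 2 n) + 1) * 2)) ^ B : ℕ) : ℝ) / Real.log n) atTop (𝓝 0) := by
  have h1 : Tendsto (fun n : ℕ => (Real.log (Nat.log 2 n : ℝ)) ^ B / (Nat.log 2 n : ℝ)) atTop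
      (𝓝 0) :=
    ((Real.isLittleO_pow_log_id_atTop (n := B)).tendsto_div_nhds_zero).comp tendsto_natLog
  have h2 : Tendsto (fun n : ℕ => ((((B : ℝ) + 1) * 6) ^ B * 2) *
      ((Real.log (Nat.log 2 n : ℝ)) ^ B / (Nat.log 2 n : ℝ))) atTop (𝓝 0) := by
    have := h1.const_mul ((((B : ℝ) + 1) * 6) ^ B * 2)
    simpa using this
  refine squeeze_zero' ?_ ?_ h2
  · filter_upwards [eventually_ge_atTop 1] with n hn
    have : 0 ≤ Real.log n := Real.log_nonneg (by exact_mod_cast hn)
    positivity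
  · have h8 : ∀ᶠ n : ℕ in atTop, (8 : ℝ) ≤ (Nat.log 2 n : ℝ) := tendsto_natLog.eventually_ge_atTop 8
    filter_upwards [h8, eventually_ge_atTop 2] with n hu hn
    set u := Nat.log 2 n with hu'
    have hu8 : 8 ≤ u := by exact_mod_cast hu
    have hlogu : 2 ≤ Real.log (u : ℝ) := by
      have e1 : Real.log 8 ≤ Real.log (u : ℝ) := Real.log_le_log (by norm_num) hu
      have e2 : Real.log 8 = 3 * Real.log 2 := by
        rw [show (8 : ℝ) = 2 ^ 3 by norm_num, Real.log_pow]; norm_num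
      have e3 := Real.log_two_gt_d9
      linarith
    have hsize : ((Nat.size u : ℕ) : ℝ) + 1 ≤ 3 * Real.log u := by
      have e1 : Nat.size u ≤ Nat.log 2 u + 1 := by
        rw [Nat.size_le]; exact Nat.lt_pow_succ_log_self (by norm_num) u
      have e2 : ((Nat.size u : ℕ) : ℝ) ≤ (Nat.log 2 u : ℝ) + 1 := by exact_mod_cast e1
      have e3 : (u : ℝ) ≥ 0 := by positivity
      have e4 : (2 : ℝ) ^ Nat.log 2 u ≤ u := by exact_mod_cast Nat.pow_log_le_self 2 (by omega)
      have e5 := Real.log_le_log (by positivity) e4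
      rw [Real.log_pow] at e5
      have e6 := Real.log_two_gt_d9
      -- log2 u ≤ log u / log 2 ≤ 1.5 log u
      have e7 : (Nat.log 2 u : ℝ) ≤ 1.5 * Real.log u := by nlinarith
      -- need 1.5 log u + 2 ≤ 3 log u
      by_cases h16 : 16 ≤ u
      · have e8 : Real.log 16 ≤ Real.log (u : ℝ) :=
          Real.log_le_log (by norm_num) (by exact_mod_cast h16)
        have e9 : Real.log 16 = 4 * Real.log 2 := by
          rw [show (16 : ℝ) = 2 ^ 4 by norm_num, Real.log_pow]; norm_num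
        linarith
      · have e8 : Nat.log 2 u < 4 := Nat.log_lt_of_lt_pow (by omega) (by omega)
        have e9 : (Nat.log 2 u : ℝ) ≤ 3 := by exact_mod_cast (by omega : Nat.log 2 u ≤ 3)
        linarith
    have hlogn : (u : ℝ) ≤ 2 * Real.log n := natLog_le n (by omega)
    have hupos : (0 : ℝ) < u := by linarith
    have hlognpos : 0 < Real.log n := by linarith
    push_cast
    rw [div_le_iff₀ hlognpos]
    have hK : (((B : ℝ) + 1) * (((Nat.size u : ℕ) + 1) * 2)) ^ B ≤
        (((B : ℝ) + 1) * 6) ^ B * (Real.log u) ^ B := by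
      rw [← mul_pow]
      apply pow_le_pow_left₀ (by positivity)
      have : 0 ≤ (B : ℝ) + 1 := by positivity
      nlinarith
    refine hK.trans ?_
    have hC : 0 ≤ (((B : ℝ) + 1) * 6) ^ B * (Real.log u) ^ B := by positivity
    have e1 : (1 : ℝ) ≤ 2 / u * Real.log n := by
      rw [div_mul_eq_mul_div, le_div_iff₀ hupos]; linarith
    calc (((B : ℝ) + 1) * 6) ^ B * (Real.log u) ^ B
        ≤ ((((B : ℝ) + 1) * 6) ^ B * (Real.log u) ^ B) * (2 / u * Real.log n) :=
          le_mul_of_one_le_right hC e1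
      _ = (((B : ℝ) + 1) * 6) ^ B * 2 * (Real.log u ^ B / u) * Real.log n := by ring

lemma exists_d {t : ℕ} (ht : 2 ≤ t) {ε : ℝ} (hε : 0 < ε) : ∀ᶠ n : ℕ in atTop,
    ∃ d : ℕ, 1 ≤ d ∧ n * ((t - 1) * d + 1) ≤ t ^ d ∧
      (d : ℝ) * Real.log t ≤ (1 + ε) * Real.log n + Real.log t := by
  have hlt : 0 < Real.log t := Real.log_pos (by exact_mod_cast (by omega : 1 < t))
  have htR : (2 : ℝ) ≤ t := by exact_mod_cast ht
  set a : ℝ := (t - 1) * ((1 + ε) / Real.log t) with ha
  have ha0 : 0 ≤ a := by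
    have : (0 : ℝ) ≤ t - 1 := by linarith
    positivity
  have hlog : Tendsto (fun n : ℕ => Real.log n) atTop atTop :=
    Real.tendsto_log_atTop.comp tendsto_natCast_atTop_atTop
  filter_upwards [hlog.eventually_ge_atTop 1, hlog.eventually_ge_atTop (2 * (a + t) / ε ^ 2),
    eventually_ge_atTop 2] with n hn1 hn2 hn
  set x := Real.log n with hx
  have hnpos : (0 : ℝ) < n := by
    have : 0 < n := by omega
    exact_mod_cast this
  set y := (1 + ε) * x / Real.log t with hy
  have hy0 : 0 < y := by positivity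
  refine ⟨⌈y⌉₊, Nat.ceil_pos.2 hy0, ?_, ?_⟩
  · have hc1 : y ≤ ⌈y⌉₊ := Nat.le_ceil y
    have hc2 : (⌈y⌉₊ : ℝ) < y + 1 := Nat.ceil_lt_add_one hy0.le
    have h1 : (n : ℝ) * (((t : ℝ) - 1) * ⌈y⌉₊ + 1) ≤ (t : ℝ) ^ ⌈y⌉₊ := by
      have e1 : (t : ℝ) ^ ⌈y⌉₊ = Real.exp (⌈y⌉₊ * Real.log t) := by
        rw [mul_comm, Real.exp_mul, Real.exp_log (by linarith), Real.rpow_natCast]
      have e2 : Real.exp ((1 + ε) * x) ≤ (t : ℝ) ^ ⌈y⌉₊ := by
        rw [e1]
        apply Real.exp_le_exp.2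
        have : y * Real.log t = (1 + ε) * x := by rw [hy]; field_simp
        nlinarith
      have e3 : Real.exp ((1 + ε) * x) = n * Real.exp (ε * x) := by
        rw [add_mul, one_mul, Real.exp_add, hx, Real.exp_log hnpos]
      have e4 : ((t : ℝ) - 1) * ⌈y⌉₊ + 1 ≤ a * x + t := by
        have : ((t : ℝ) - 1) * y = a * x := by rw [ha, hy]; ring
        nlinarith
      have e5 : a * x + t ≤ Real.exp (ε * x) := by
        have f1 := Real.quadratic_le_exp_of_nonneg (x := ε * x) (by positivity)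
        have f2 : a * x + t ≤ (a + t) * x := by nlinarith
        have f3 : (a + t) * x ≤ (ε * x) ^ 2 / 2 := by
          rw [div_le_iff₀ (by positivity)] at hn2
          nlinarith
        nlinarith [mul_pos hε (by linarith : (0 : ℝ) < x)]
      calc (n : ℝ) * (((t : ℝ) - 1) * ⌈y⌉₊ + 1) ≤ n * Real.exp (ε * x) :=
            mul_le_mul_of_nonneg_left (e4.trans e5) hnpos.le
        _ = Real.exp ((1 + ε) * x) := e3.symm
        _ ≤ _ := e2
    have h2 : ((n * ((t - 1) * ⌈y⌉₊ + 1) : ℕ) : ℝ) ≤ ((t ^ ⌈y⌉₊ : ℕ) : ℝ) := by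
      push_cast [Nat.cast_sub (by omega : 1 ≤ t)]
      exact h1
    exact_mod_cast h2
  · have hc2 : (⌈y⌉₊ : ℝ) < y + 1 := Nat.ceil_lt_add_one hy0.le
    have : y * Real.log t = (1 + ε) * x := by rw [hy]; field_simp
    nlinarith

/-- **MP_d046ed_co, Q1 (proved, with the value of the constant).** For every `0 < α < 1` and every
integer `t ≥ 2`, the `t`-dimension of `Div((α n, n])` is asymptotic to `c log n` with
`c = 1 / log t`. -/
theorem result (α : ℝ) (hα0 : 0 < α) (hα1 : α < 1) (t : ℕ) (ht : 2 ≤ t) :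
    0 < 1 / Real.log t ∧
    Tendsto (fun n : ℕ => (tDim (DivPoset (Set.Ioc (α * n) n)) t : ℝ) /
      ((1 / Real.log t) * Real.log n)) atTop (𝓝 1) := by
  have hlt : 0 < Real.log t := Real.log_pos (by exact_mod_cast (by omega : 1 < t))
  refine ⟨by positivity, ?_⟩
  have hlog : Tendsto (fun n : ℕ => Real.log n) atTop atTop :=
    Real.tendsto_log_atTop.comp tendsto_natCast_atTop_atTop
  obtain ⟨B, hB⟩ := exists_nat_ge (1 / α)
  set D : ℕ → ℕ := fun n => tDim (DivPoset (Set.Ioc (α * n) n)) t with hD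
  -- upper bound and nonemptiness
  have hup : ∀ (n d : ℕ), 1 ≤ d → n * ((t - 1) * d + 1) ≤ t ^ d →
      (∃ f : Q α n → (Fin (D n) → Fin t), Function.Injective f) ∧
      D n ≤ d + ((B + 1) * ((Nat.size (Nat.log 2 n) + 1) * 2)) ^ B := by
    intro n d hd1 hd
    have h1 := upper (α := α) (n := n) (B := B) (L := Nat.size (Nat.log 2 n) + 1) hα0 hB
      (lt_of_lt_of_le (Nat.lt_size_self _) (Nat.pow_le_pow_right (by norm_num) (Nat.le_succ _)))
      (Nat.succ_pos _) ht hd
    have hmem : d + ((B + 1) * ((Nat.size (Nat.log 2 n) + 1) * 2)) ^ B ∈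
        {d | 1 ≤ d ∧ ∃ f : Q α n → (Fin d → Fin t), Function.Injective f ∧
          ∀ x y, x ≤ y ↔ f x ≤ f y} := ⟨by omega, h1⟩
    have h2 := Nat.sInf_mem ⟨_, hmem⟩
    obtain ⟨-, f, hf, -⟩ := h2
    exact ⟨⟨f, hf⟩, Nat.sInf_le hmem⟩
  -- lower bound
  have hlow : ∀ᶠ n : ℕ in atTop, Real.log (1 - α) + Real.log n ≤ D n * Real.log t := by
    filter_upwards [exists_d ht (one_pos), eventually_ge_atTop 1] with n ⟨d, hd1, hd, _⟩ hn
    obtain ⟨f, hf⟩ := (hup n d hd1 hd).1
    have h1 := Fintype.card_le_of_injective f hf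
    rw [Fintype.card_fun, Fintype.card_fin, Fintype.card_fin] at h1
    have h2 : (1 - α) * n ≤ (t : ℝ) ^ D n := by
      refine (le_card_Q hα0.le).trans ?_
      exact_mod_cast h1
    have hnpos : (0 : ℝ) < n := by exact_mod_cast hn
    have h3 := Real.log_le_log (mul_pos (by linarith) hnpos) h2
    rw [Real.log_mul (by linarith) hnpos.ne', Real.log_pow] at h3
    exact h3
  have hrew : (fun n : ℕ => (D n : ℝ) / ((1 / Real.log t) * Real.log n)) =
      fun n : ℕ => (D n : ℝ) * Real.log t / Real.log n := by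
    funext n
    rw [one_div, ← div_div, div_inv_eq_mul]
  show Tendsto (fun n : ℕ => (D n : ℝ) / ((1 / Real.log t) * Real.log n)) atTop (𝓝 1)
  rw [hrew]
  have hinv : Tendsto (fun n : ℕ => (Real.log n)⁻¹) atTop (𝓝 0) := tendsto_inv_atTop_zero.comp hlog
  rw [tendsto_order]
  constructor
  · intro a ha
    have h1 : Tendsto (fun n : ℕ => Real.log (1 - α) * (Real.log n)⁻¹ + 1) atTop (𝓝 1) := by
      have := (hinv.const_mul (Real.log (1 - α))).add_const 1
      simpa using this
    filter_upwards [(tendsto_order.1 h1).1 a ha, hlow, hlog.eventually_gt_atTop 0] with n h2 h3 h4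
    refine lt_of_lt_of_le h2 ?_
    rw [le_div_iff₀ h4]
    calc (Real.log (1 - α) * (Real.log n)⁻¹ + 1) * Real.log n
        = Real.log (1 - α) + Real.log n := by field_simp
      _ ≤ _ := h3
  · intro b hb
    set ε := (b - 1) / 2 with hε
    have hε0 : 0 < ε := by rw [hε]; linarith
    have h1 : Tendsto (fun n : ℕ => (1 + ε) + Real.log t * (Real.log n)⁻¹ +
        ((((B + 1) * ((Nat.size (Nat.log 2 n) + 1) * 2)) ^ B : ℕ) : ℝ) / Real.log n * Real.log t)
        atTop (𝓝 (1 + ε)) := by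
      have e1 := (hinv.const_mul (Real.log t)).const_add (1 + ε)
      have e2 := (K_lim B).mul_const (Real.log t)
      have := e1.add e2
      simpa using this
    have hlt2 : 1 + ε < b := by rw [hε]; linarith
    filter_upwards [(tendsto_order.1 h1).2 b hlt2, exists_d ht hε0,
      hlog.eventually_gt_atTop 0] with n h2 ⟨d, hd1, hd, hd2⟩ h4
    refine lt_of_le_of_lt ?_ h2
    rw [div_le_iff₀ h4]
    have h5 := (hup n d hd1 hd).2
    have h6 : (D n : ℝ) ≤ d +
        ((((B + 1) * ((Nat.size (Nat.log 2 n) + 1) * 2)) ^ B : ℕ) : ℝ) := by exact_mod_cast h5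
    calc (D n : ℝ) * Real.log t ≤
          (d + ((((B + 1) * ((Nat.size (Nat.log 2 n) + 1) * 2)) ^ B : ℕ) : ℝ)) * Real.log t :=
          mul_le_mul_of_nonneg_right h6 hlt.le
      _ ≤ ((1 + ε) * Real.log n + Real.log t) +
          ((((B + 1) * ((Nat.size (Nat.log 2 n) + 1) * 2)) ^ B : ℕ) : ℝ) * Real.log t := by
          rw [add_mul]; linarith
      _ = _ := by field_simp

end Pool.Agent.Results.MP_d046ed_co.DivTDimension
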